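import Pool.Agent.Y280.OC.NotList

set_option autoImplicit false
open scoped Matrix.Norms.L2Operator
open Pool.Agent.Helper547.OS

namespace Pool.Agent.Results.MP_5c6a50_an.ContinuumOfCounterexamples

/-- The space `E_c`: the pair `(a, b)` is the function `s ↦ a + s b` on `[-1, 1]` with the weight
`(1 + c s²)^(-1/2)`; a matrix `x` over `ℂ × ℂ` with first and second coordinate matrices `A` and `B`
has norm `sup {‖A + s B‖ / sqrt (1 + c s²) : |s| ≤ 1}`. -/
noncomputable def E (c : ℝ) : MatNorms (ℂ × ℂ) := fun _ x =>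
  ⨆ s : Set.Icc (-1 : ℝ) 1,
    ‖x.map Prod.fst + ((s : ℝ) : ℂ) • x.map Prod.snd‖ / Real.sqrt (1 + c * ((s : ℝ) * (s : ℝ)))

/-- For every `c > 0` the two dimensional operator space `E_c` satisfies `d_SK = 1`, its dual, which is
`E_{1/c}`, also satisfies `d_SK = 1`, and neither of them is in the list of the question. The spaces
`E_c` are pairwise different: for `c ≠ c'` they are not even isometric as Banach spaces (level one of
the matrix norms). For `c ≠ 1` the space `E_c` is not completely isometric to its dual. -/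
theorem result :
    (∀ c : ℝ, 0 < c →
      IsOperatorSpace (ℂ × ℂ) (E c) ∧ dSK (E c) = 1 ∧ dSK (dualNorms (E c)) = 1 ∧
      CompletelyIsometric (dualNorms (E c)) (E c⁻¹) ∧
      ¬ InList (E c) ∧ ¬ InList (dualNorms (E c)) ∧
      (c ≠ 1 → ¬ CompletelyIsometric (dualNorms (E c)) (E c))) ∧
    (∀ c c' : ℝ, 0 < c → 0 < c' →
      (CompletelyIsometric (E c) (E c') ∨
        ∃ u : (ℂ × ℂ) ≃ₗ[ℂ] (ℂ × ℂ), ∀ p : ℂ × ℂ,
          E c' 1 (Matrix.of fun _ _ => u p) = E c 1 (Matrix.of fun _ _ => p)) → c = c') := by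
  have hE : ∀ c, E c = Pool.Agent.Y280.OC.aff c := fun c => rfl
  refine ⟨fun c hc => ?_, fun c c' hc hc' h => ?_⟩
  · rw [hE, hE]
    refine ⟨Pool.Agent.Y280.OC.aff_operatorSpace hc, Pool.Agent.Y280.OC.dSK_aff hc,
      Pool.Agent.Y280.OC.dSK_dual_aff hc, Pool.Agent.Y280.OC.dual_aff hc,
      Pool.Agent.Y280.OC.notc_inList hc, ?_⟩
    obtain ⟨v, hv⟩ := Pool.Agent.Y280.OC.dual_aff hc
    have tr : ∀ {F : Type} [AddCommGroup F] [Module ℂ F] (NF : MatNorms F),
        CompletelyIsometric (dualNorms (Pool.Agent.Y280.OC.aff c)) NF →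
        CompletelyIsometric (Pool.Agent.Y280.OC.aff c⁻¹) NF := by
      intro F _ _ NF hF
      obtain ⟨w, hw⟩ := hF
      refine ⟨v.symm.trans w, fun n x => ?_⟩
      have h1 : x.map (v.symm.trans w) = (x.map v.symm).map w := by
        ext i j; rfl
      have h2 : (x.map v.symm).map v = x := by
        ext i j <;> simp
      rw [h1, hw, ← hv, h2]
    refine ⟨fun h => ?_, fun hc1 h => ?_⟩
    swap
    · obtain ⟨u, hu⟩ := tr _ h
      have h1 := Pool.Agent.Y280.OC.eq_of_iso (inv_pos.2 hc) hc u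
        (fun p => Pool.Agent.Y280.OC.cb_one u hu p)
      have h2 : c⁻¹ * c = 1 := inv_mul_cancel₀ hc.ne'
      rw [h1] at h2
      apply hc1
      nlinarith
    apply Pool.Agent.Y280.OC.notc_inList (inv_pos.2 hc)
    rcases h with h | h | ⟨k, hk, h | h | h | h | h | h⟩
    · exact Or.inl (tr _ h)
    · exact Or.inr (Or.inl (tr _ h))
    · exact Or.inr (Or.inr ⟨k, hk, Or.inl (tr _ h)⟩)
    · exact Or.inr (Or.inr ⟨k, hk, Or.inr (Or.inl (tr _ h))⟩)
    · exact Or.inr (Or.inr ⟨k, hk, Or.inr (Or.inr (Or.inl (tr _ h)))⟩)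
    · exact Or.inr (Or.inr ⟨k, hk, Or.inr (Or.inr (Or.inr (Or.inl (tr _ h))))⟩)
    · exact Or.inr (Or.inr ⟨k, hk, Or.inr (Or.inr (Or.inr (Or.inr (Or.inl (tr _ h)))))⟩)
    · exact Or.inr (Or.inr ⟨k, hk, Or.inr (Or.inr (Or.inr (Or.inr (Or.inr (tr _ h)))))⟩)
  · rcases h with ⟨u, hu⟩ | ⟨u, hu⟩
    · exact Pool.Agent.Y280.OC.eq_of_iso hc hc' u (fun p => Pool.Agent.Y280.OC.cb_one u hu p)
    · exact Pool.Agent.Y280.OC.eq_of_iso hc hc' u hu

end Pool.Agent.Results.MP_5c6a50_an.ContinuumOfCounterexamples
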